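import Pool.Agent.Q91.PT.Stm

/-!
# Project PT, job CHR: the characteristic function of the area
-/

set_option autoImplicit false

namespace Pool.Agent.Q195.PT.CHR

open Finset Pool.Agent.Q91.PT

theorem norm_half (t : ℝ) :
    ‖(1 + Complex.exp (Complex.I * t)) / 2‖ = |Real.cos (t / 2)| := by
  have h1 : (1 + Complex.exp (Complex.I * t)) / 2 =
      Complex.exp (((t / 2 : ℝ) : ℂ) * Complex.I) * ((Real.cos (t / 2) : ℝ) : ℂ) := by
    rw [Complex.ofReal_cos, Complex.cos, mul_div_assoc', mul_add, ← Complex.exp_add,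
      ← Complex.exp_add]
    have h2 : ((t / 2 : ℝ) : ℂ) * Complex.I + ((t / 2 : ℝ) : ℂ) * Complex.I = Complex.I * t := by
      push_cast; ring
    have h3 : ((t / 2 : ℝ) : ℂ) * Complex.I + -((t / 2 : ℝ) : ℂ) * Complex.I = 0 := by ring
    rw [h2, h3, Complex.exp_zero, add_comm]
  rw [h1, norm_mul, Complex.norm_exp_ofReal_mul_I, one_mul, Complex.norm_real, Real.norm_eq_abs]

theorem t (hA : S_abs) : S_chr := by
  intro α X F g b A hF t
  have h := hA α ℂ X F g b A hF (fun β j _ => Complex.exp (Complex.I * t * ((β : ℂ) + (j : ℂ))))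
  have h1 : ∑ x ∈ X, Complex.exp (Complex.I * t * A x) =
      ∑ x ∈ X, Complex.exp (Complex.I * t * (((A x - Dn F b x : ℤ) : ℂ) + ((Dn F b x : ℕ) : ℂ))) := by
    refine sum_congr rfl fun x _ => ?_
    congr 2
    push_cast
    ring
  rw [h1, h]
  refine (norm_sum_le _ _).trans (sum_le_sum fun x _ => le_of_eq ?_)
  have h2 : (∑ j ∈ range ((F x).card + 1), ((F x).card.choose j : ℂ) *
      Complex.exp (Complex.I * t * (((A x - Dn F b x : ℤ) : ℂ) + (j : ℂ)))) / 2 ^ (F x).card =
      Complex.exp (((t * (A x - Dn F b x : ℤ) : ℝ) : ℂ) * Complex.I) *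
        ((1 + Complex.exp (Complex.I * t)) / 2) ^ (F x).card := by
    rw [div_pow, mul_div_assoc', add_comm (1 : ℂ), add_pow, mul_sum]
    congr 1
    refine sum_congr rfl fun j _ => ?_
    rw [one_pow, mul_one, ← Complex.exp_nat_mul, mul_comm ((F x).card.choose j : ℂ), ← mul_assoc,
      ← Complex.exp_add]
    congr 2
    push_cast
    ring
  rw [h2, norm_mul, Complex.norm_exp_ofReal_mul_I, one_mul, norm_pow, norm_half]

end Pool.Agent.Q195.PT.CHR
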