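import Pool.Agent.Q91.PT.Stm3

/-!
# Project PT, job PHS: the sums of the averaged indicator of the area
-/

set_option autoImplicit false

namespace Pool.Agent.Q195.PT.PHS

open Finset Pool.Agent.Q91.PT Pool.Agent.H976R2 Pool.Agent.H976R2.Lip Pool.Agent.H739K Pool.Agent.H924P
open scoped Classical

theorem binom (K : ℕ) (β a : ℤ) (g : ℝ → ℕ → ℝ) :
    (∑ j ∈ range (K + 1), (K.choose j : ℝ) * (if β + (j : ℤ) = a then g j K else 0)) / 2 ^ K =
      bn K (a - β) * g ((a - β : ℤ) : ℝ) K := by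
  unfold bn
  split_ifs with h
  · obtain ⟨m, hm⟩ : ∃ m : ℕ, a - β = (m : ℤ) := ⟨(a - β).toNat, (Int.toNat_of_nonneg h).symm⟩
    have h1 : ∀ j : ℕ, (K.choose j : ℝ) * (if β + (j : ℤ) = a then g j K else 0) =
        if j = m then (K.choose j : ℝ) * g j K else 0 := by
      intro j
      by_cases hj : j = m
      · rw [if_pos hj, if_pos (by omega)]
      · rw [if_neg hj, if_neg (by omega), mul_zero]
    simp only [h1]
    rw [sum_ite_eq', hm]
    simp only [Int.toNat_natCast, Int.cast_natCast]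
    split_ifs with h2
    · ring
    · have h3 : K.choose m = 0 := Nat.choose_eq_zero_of_lt (by
        rw [mem_range] at h2; omega)
      rw [h3]
      simp
  · have h1 : ∀ j : ℕ, (K.choose j : ℝ) * (if β + (j : ℤ) = a then g j K else 0) = 0 := by
      intro j
      rw [if_neg (by omega), mul_zero]
    simp only [h1]
    simp

theorem key (hA : S_abs) (hF : S_flp) (n : ℕ) (hn : 3 ≤ n) (a : ℤ) (κ : ℝ) (g : ℝ → ℕ → ℝ) :
    ∑ w ∈ XB n Set.univ κ, ph a w * g ((a - base w : ℤ) : ℝ) (Fl w).card =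
      ∑ w ∈ (XB n Set.univ κ).filter (fun w => (ar w : ℤ) = a), g (Dn Fl bb w) (Fl w).card := by
  have h := hA (List Dir) ℝ (XB n Set.univ κ) Fl sw (fun w k => ins' w (cl w k))
    (fun w => (ar w : ℤ)) (hF n Set.univ κ hn).1
    (fun β j K => if β + (j : ℤ) = a then g j K else 0)
  rw [sum_filter]
  have h1 : ∑ w ∈ XB n Set.univ κ, (if (ar w : ℤ) = a then g (Dn Fl bb w) (Fl w).card else 0) =
      ∑ w ∈ XB n Set.univ κ, (if (ar w : ℤ) - Dn Fl (fun w k => ins' w (cl w k)) w +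
        ((Dn Fl (fun w k => ins' w (cl w k)) w : ℕ) : ℤ) = a then
          g (Dn Fl (fun w k => ins' w (cl w k)) w) (Fl w).card else 0) := by
    refine sum_congr rfl fun w _ => ?_
    have h2 : Dn Fl (fun w k => ins' w (cl w k)) w = Dn Fl bb w := rfl
    rw [h2, sub_add_cancel]
  rw [h1, h]
  refine sum_congr rfl fun w _ => ?_
  rw [binom]
  rfl

theorem mem_XB (n : ℕ) (B : Set (ℕ × ℕ)) (κ : ℝ) (w : List Dir) :
    w ∈ XB n B κ ↔ w ∈ KP n ∧ dims w ∈ B ∧ κ ≤ ((Fl w).card : ℝ) := by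
  unfold XB
  rw [mem_filter]

theorem t (hA : S_abs) (hF : S_flp) : S_phs := by
  intro n hn a
  refine ⟨?_, fun κ _ => key hA hF n hn a κ (fun x K => (|2 * x - K| + 1) / K)⟩
  have h := key hA hF n hn a 0 (fun _ _ => 1)
  have hX : XB n Set.univ 0 = KP n := by
    ext w
    rw [mem_XB]
    exact ⟨fun h => h.1, fun h => ⟨h, Set.mem_univ _, Nat.cast_nonneg _⟩⟩
  rw [hX] at h
  simp only [mul_one] at h
  unfold mm Nn NB
  rw [h, sum_const, nsmul_eq_mul, mul_one]
  simp only [Set.mem_univ, true_and]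

end Pool.Agent.Q195.PT.PHS
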